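import Mathlib
import Pool.Agent.Lib.Helper90.GGL.Final

/-!
Cyclic covers of products of projective spaces, branched along hyperplanes which osculate rational
normal curves, are pseudo-Brody hyperbolic: for instance the hypersurfaces
`z ^ N = ∏ a, (x 0 + a x 1 + … + a ^ n x n)` of degree `N > 3 n` (`N` different numbers `a`), and
the compactifications of `z ^ e = P 1 (x 1) ⋯ P n (x n)` for squarefree polynomials `P i` whose
degrees are divisible by `e > n` and larger than `2 e / (e - n)`, which are quotients of products
of `n` curves.
-/

open MvPolynomial Pool.Agent.H89.Kummer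

namespace Pool.Agent.Results.MP_2a5ae2_ag.CyclicCovers

open Pool.Agent.GGL

/-- Let `X` be an irreducible closed subset of a projective space and let `c 0, …, c (t - 1)` be
rational maps from `X` to projective spaces of dimensions `n 0, …, n (t - 1)`, such that the
rational map with these components is generically finite. Regard `c i` as a polynomial of degree
`n i` in one variable with coefficients in the functions on `X`, and suppose that it has `n i`
distinct roots at some point of `X`. Suppose that the product of the values of `c i` at the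
elements of `A i`, over all `i`, is the `e`-th power of a function `w` which does not vanish
identically on `X`, where `e` divides the cardinality of `A i`. If `∑ n i < e` and
`2 (n i) e < |A i| (e - ∑ n i)` for all `i`, then `X` is pseudo-Brody hyperbolic. -/
theorem result {M r t e : ℕ} (f : Fin r → MvPolynomial (Fin M) ℂ)
    (hf : ∀ j, ∃ d, (f j).IsHomogeneous d) (hX : IsIrred (zeroSet f)) (n : Fin t → ℕ)
    (hn : ∀ i, 1 ≤ n i) (c : ∀ i, Fin (n i + 1) → MvPolynomial (Fin M) ℂ)
    (hroots : ∀ i, ∃ x ∈ zeroSet f, HasDistinctRoots (c i) x)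
    (g : MvPolynomial (Fin M) ℂ) (hg : ∃ x ∈ zeroSet f, eval x g ≠ 0)
    (hfin : HasFiniteFibres (zeroSet f) c g) (A : Fin t → Finset ℂ)
    (w : MvPolynomial (Fin M) ℂ) (hw : ∃ x ∈ zeroSet f, eval x w ≠ 0)
    (hrel : ∀ x ∈ zeroSet f, eval x w ^ e = ∏ i, ∏ a ∈ A i, form (c i) x a)
    (hA : ∀ i, e ∣ (A i).card) (hne : ∑ i, n i < e)
    (hN : ∀ i, 2 * n i * e < (A i).card * (e - ∑ i, n i)) : PseudoBrody (zeroSet f) :=
  pseudoBrody_cyclic f hf hX n hn c A hA hne hN w hrel hw hroots g hg hfin

end Pool.Agent.Results.MP_2a5ae2_ag.CyclicCovers
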